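import Pool.Agent.helper14.ED.BE
import Pool.Agent.helper79.MP.LR
import Pool.Agent.helper19.HY.DST
import Pool.Agent.helper25.HY.MOB

/-!
# Sharp Koebe theorem, part 2: Koebe 1/4, growth with exponent 2, Pick's inequality
-/

set_option autoImplicit false

open Complex Metric Set Filter Topology MeasureTheory

noncomputable section

namespace EDP

open HY

theorem zero_UD : (0 : ℂ) ∈ UD := by simp [UD]

theorem UD_open : IsOpen UD := isOpen_ball

theorem UD_convex : Convex ℝ UD := convex_ball (0 : ℂ) 1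

/-- Koebe's 1/4 theorem, at the centre. -/
theorem K4u (F : ℂ → ℂ) (hd : DifferentiableOn ℂ F UD) (hi : InjOn F UD) (p : ℂ)
    (hp : ∀ z ∈ UD, F z ≠ p) : ‖deriv F 0‖ ≤ 4 * ‖F 0 - p‖ := by
  have hF0 : F 0 - p ≠ 0 := sub_ne_zero.2 (hp 0 zero_UD)
  obtain ⟨g, hgd, hg0, hg⟩ := MPS.LR 2 UD (fun z => (F z - p) / (F 0 - p)) 0 1 (by norm_num)
    UD_open UD_convex ((hd.sub_const p).div_const _)
    (fun w hw => div_ne_zero (sub_ne_zero.2 (hp w hw)) hF0) zero_UD (by rw [div_self hF0]; norm_num)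
  -- `g z ≠ - g w`
  have hgg : ∀ z ∈ UD, ∀ w ∈ UD, g z ^ 2 = g w ^ 2 → z = w := by
    intro z hz w hw h
    rw [hg z hz, hg w hw, div_left_inj' hF0, sub_left_inj] at h
    exact hi hz hw h
  have hgne : ∀ z ∈ UD, g z ≠ 0 := by
    intro z hz h
    have h1 := hg z hz
    rw [h, zero_pow (by norm_num)] at h1
    exact (div_ne_zero (sub_ne_zero.2 (hp z hz)) hF0) h1.symm
  have hneg : ∀ z ∈ UD, ∀ w ∈ UD, g z + g w ≠ 0 := by
    intro z hz w hw h
    have h1 : g z = - g w := by linear_combination h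
    have h2 : z = w := hgg z hz w hw (by rw [h1]; ring)
    rw [h2] at h
    apply hgne w hw
    linear_combination h / 2
  have hg1 : ∀ z ∈ UD, g z + 1 ≠ 0 := by
    intro z hz
    have := hneg z hz 0 zero_UD
    rwa [hg0] at this
  -- the function `m`
  have hmd : DifferentiableOn ℂ (fun z => (g z - 1) / (g z + 1)) UD :=
    (hgd.sub_const 1).div (hgd.add_const 1) hg1
  have hmi : InjOn (fun z => (g z - 1) / (g z + 1)) UD := by
    intro z hz w hw h
    have h1 := hg1 z hz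
    have h2 := hg1 w hw
    simp only at h
    rw [div_eq_div_iff h1 h2] at h
    have h3 : g z = g w := by linear_combination h / 2
    exact hgg z hz w hw (by rw [h3])
  have h := BE (fun z => (g z - 1) / (g z + 1)) hmd hmi (by simp [hg0]) (by
    intro z hz w hw h
    have h1 := hg1 z hz
    have h2 := hg1 w hw
    rw [div_mul_div_comm, div_eq_one_iff_eq (mul_ne_zero h1 h2)] at h
    apply hneg z hz w hw
    linear_combination -h / 2)
  have hgd0 : HasDerivAt g (deriv g 0) 0 :=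
    (hgd.differentiableAt (UD_open.mem_nhds zero_UD)).hasDerivAt
  have hFd0 : HasDerivAt F (deriv F 0) 0 :=
    (hd.differentiableAt (UD_open.mem_nhds zero_UD)).hasDerivAt
  have h3 : deriv (fun z => (g z - 1) / (g z + 1)) 0 = deriv g 0 / 2 := by
    have h4 := (hgd0.sub_const 1).div (hgd0.add_const 1) (hg1 0 zero_UD)
    have e : (deriv g 0 * (g 0 + 1) - (g 0 - 1) * deriv g 0) / (g 0 + 1) ^ 2 = deriv g 0 / 2 := by
      rw [hg0]; ring
    rw [e] at h4
    exact h4.deriv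
  have h6 : 2 * deriv g 0 = deriv F 0 / (F 0 - p) := by
    have h7 : HasDerivAt (fun z => g z ^ 2) (2 * g 0 ^ (2 - 1) * deriv g 0) 0 := by
      simpa using hgd0.fun_pow 2
    have h8 : HasDerivAt (fun z => (F z - p) / (F 0 - p)) (deriv F 0 / (F 0 - p)) 0 :=
      (hFd0.sub_const p).div_const _
    have h9 : (fun z => g z ^ 2) =ᶠ[𝓝 0] fun z => (F z - p) / (F 0 - p) := by
      filter_upwards [UD_open.mem_nhds zero_UD] with z hz using hg z hz
    have h10 := (h8.congr_of_eventuallyEq h9).unique h7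
    rw [h10, hg0]; norm_num
  rw [h3] at h
  have h11 : deriv F 0 = 4 * (F 0 - p) * (deriv g 0 / 2) := by
    have : deriv F 0 = 2 * deriv g 0 * (F 0 - p) := by rw [h6]; field_simp
    rw [this]; ring
  rw [h11, norm_mul, norm_mul]
  have h12 : ‖(4 : ℂ)‖ = 4 := by norm_num
  rw [h12]
  have := norm_nonneg (F 0 - p)
  nlinarith

/-- Koebe's 1/4 theorem at a point of the disc. -/
theorem K4x (F : ℂ → ℂ) (hd : DifferentiableOn ℂ F UD) (hi : InjOn F UD) (p : ℂ)
    (hp : ∀ z ∈ UD, F z ≠ p) (x : ℂ) (hx : x ∈ UD) :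
    ‖deriv F x‖ * (1 - ‖x‖ ^ 2) ≤ 4 * ‖F x - p‖ := by
  obtain ⟨h1, -, h2, -, h3, -, h4, -, -, -, h5, -⟩ := MOB x hx
  have hmap : MapsTo (S x) UD UD := fun y hy => (h1 y hy).2.1
  have h := K4u (fun z => F (S x z)) (hd.comp h3 hmap) (fun a ha b hb hab =>
    h4 ha hb (hi (hmap ha) (hmap hb) hab)) p (fun z hz => hp _ (hmap hz))
  have hc : HasDerivAt (fun z => F (S x z)) (deriv F x * (1 - (‖x‖ : ℂ) ^ 2)) 0 := by
    have h6 : HasDerivAt F (deriv F x) (S x 0) := by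
      rw [h2]; exact (hd.differentiableAt (UD_open.mem_nhds hx)).hasDerivAt
    have h7 : HasDerivAt (S x) (1 - (‖x‖ : ℂ) ^ 2) 0 := by
      rw [← h5]; exact (h3.differentiableAt (UD_open.mem_nhds zero_UD)).hasDerivAt
    exact h6.comp 0 h7
  rw [hc.deriv, h2, norm_mul] at h
  have h8 : ‖(1 : ℂ) - (‖x‖ : ℂ) ^ 2‖ = 1 - ‖x‖ ^ 2 := by
    have hx1 : ‖x‖ < 1 := by simpa [UD] using hx
    have : (1 : ℂ) - (‖x‖ : ℂ) ^ 2 = ((1 - ‖x‖ ^ 2 : ℝ) : ℂ) := by push_cast; ring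
    rw [this, Complex.norm_real, Real.norm_eq_abs, abs_of_nonneg]
    nlinarith [norm_nonneg x]
  rw [h8] at h
  exact h

/-- the growth theorem with exponent `2`, with respect to an omitted value. -/
theorem GRW (F : ℂ → ℂ) (hd : DifferentiableOn ℂ F UD) (hi : InjOn F UD) (p : ℂ)
    (hp : ∀ z ∈ UD, F z ≠ p) (x : ℂ) (hx : x ∈ UD) :
    ‖F x - p‖ ≤ ‖F 0 - p‖ * ((1 + ‖x‖) / (1 - ‖x‖)) ^ 2 := by
  by_cases hx0 : x = 0
  · rw [hx0]; simp
  have hx1 : ‖x‖ < 1 := by simpa [UD] using hx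
  have hxp : 0 < ‖x‖ := norm_pos_iff.2 hx0
  set v : ℂ := x / ‖x‖ with hv
  have hv1 : ‖v‖ = 1 := by
    rw [hv, norm_div, Complex.norm_real, norm_norm, div_self hxp.ne']
  have hmem : ∀ t : ℝ, 0 ≤ t → t < 1 → (t : ℂ) * v ∈ UD := by
    intro t h0 h1
    have : ‖(t : ℂ) * v‖ < 1 := by
      rw [norm_mul, hv1, mul_one, Complex.norm_real, Real.norm_eq_abs, abs_of_nonneg h0]; exact h1
    simpa [UD] using this
  have hnorm : ∀ t : ℝ, 0 ≤ t → ‖(t : ℂ) * v‖ = t := by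
    intro t h0
    rw [norm_mul, hv1, mul_one, Complex.norm_real, Real.norm_eq_abs, abs_of_nonneg h0]
  have hFp : 0 < ‖F 0 - p‖ := norm_pos_iff.2 (sub_ne_zero.2 (hp 0 zero_UD))
  -- for every `η > 0`
  have key : ∀ η : ℝ, 0 < η → ‖F x - p‖ ≤
      ‖F 0 - p‖ * ((1 + ‖x‖) / (1 - ‖x‖)) ^ 2 * Real.exp (η * ‖x‖) := by
    intro η hη
    set B : ℝ → ℝ := fun t => ‖F 0 - p‖ * ((1 + t) / (1 - t)) ^ 2 * Real.exp (η * t) with hB
    have hBd : ∀ t : ℝ, t < 1 → HasDerivAt B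
        (‖F 0 - p‖ * (2 * ((1 + t) / (1 - t)) ^ (2 - 1) * ((1 * (1 - t) - (1 + t) * (-1)) / (1 - t) ^ 2)) *
          Real.exp (η * t) + ‖F 0 - p‖ * ((1 + t) / (1 - t)) ^ 2 * (Real.exp (η * t) * η)) t := by
      intro t ht
      have h1 : HasDerivAt (fun t : ℝ => 1 + t) 1 t := (hasDerivAt_id t).const_add 1
      have h2 : HasDerivAt (fun t : ℝ => 1 - t) (-1) t := by
        simpa using (hasDerivAt_id t).const_sub 1
      have h3 : HasDerivAt (fun t : ℝ => (1 + t) / (1 - t))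
          ((1 * (1 - t) - (1 + t) * (-1)) / (1 - t) ^ 2) t := h1.div h2 (by linarith)
      have h4 := (h3.fun_pow 2).const_mul ‖F 0 - p‖
      have h5 : HasDerivAt (fun t : ℝ => Real.exp (η * t)) (Real.exp (η * t) * η) t := by
        have := ((hasDerivAt_id t).const_mul η).exp
        simpa using this
      have h6 := h4.mul h5
      exact_mod_cast h6
    have hfd : ∀ t : ℝ, 0 ≤ t → t < 1 → HasDerivAt (fun s : ℝ => F ((s : ℂ) * v) - p)
        (deriv F ((t : ℂ) * v) * v) t := by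
      intro t h0 h1
      have h2 : HasDerivAt F (deriv F ((t : ℂ) * v)) ((t : ℂ) * v) :=
        (hd.differentiableAt (UD_open.mem_nhds (hmem t h0 h1))).hasDerivAt
      have h3 : HasDerivAt (fun s : ℝ => (s : ℂ) * v) v t := by
        have := (Complex.ofRealCLM.hasDerivAt (x := t)).mul_const v
        simpa using this
      have h4 := (h2.comp_of_eq t h3 rfl).sub_const p
      exact h4
    have hmain := image_norm_le_of_norm_deriv_right_lt_deriv_boundary'
      (f := fun s : ℝ => F ((s : ℂ) * v) - p) (f' := fun t : ℝ => deriv F ((t : ℂ) * v) * v)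
      (a := 0) (b := ‖x‖) (B := B) (B' := fun t =>
        (‖F 0 - p‖ * (2 * ((1 + t) / (1 - t)) ^ (2 - 1) * ((1 * (1 - t) - (1 + t) * (-1)) / (1 - t) ^ 2)) *
          Real.exp (η * t) + ‖F 0 - p‖ * ((1 + t) / (1 - t)) ^ 2 * (Real.exp (η * t) * η)))
      (fun t ht => (hfd t ht.1 (lt_of_le_of_lt ht.2 hx1)).continuousAt.continuousWithinAt)
      (fun t ht => (hfd t ht.1 (ht.2.trans hx1)).hasDerivWithinAt)
      (by simp [hB])
      (fun t ht => (hBd t (lt_of_le_of_lt ht.2 hx1)).continuousAt.continuousWithinAt)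
      (fun t ht => (hBd t (ht.2.trans hx1)).hasDerivWithinAt)
      (by
        intro t ht he
        have ht1 : t < 1 := ht.2.trans hx1
        have h0 : 0 < 1 - t := by linarith
        have h0' : 0 < 1 + t := by linarith [ht.1]
        have h1 := K4x F hd hi p hp ((t : ℂ) * v) (hmem t ht.1 ht1)
        rw [hnorm t ht.1] at h1
        have h2 : ‖deriv F ((t : ℂ) * v) * v‖ = ‖deriv F ((t : ℂ) * v)‖ := by
          rw [norm_mul, hv1, mul_one]
        rw [h2]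
        have h3 : ‖deriv F ((t : ℂ) * v)‖ ≤ 4 * B t / (1 - t ^ 2) := by
          rw [le_div_iff₀ (by nlinarith)]
          calc _ ≤ 4 * ‖F ((t : ℂ) * v) - p‖ := h1
            _ = 4 * B t := by rw [← he]
        refine lt_of_le_of_lt h3 ?_
        have h4 : ‖F 0 - p‖ * (2 * ((1 + t) / (1 - t)) ^ (2 - 1) *
            ((1 * (1 - t) - (1 + t) * (-1)) / (1 - t) ^ 2)) * Real.exp (η * t) =
            4 * B t / (1 - t ^ 2) := by
          have h5 : 1 - t ^ 2 ≠ 0 := by nlinarith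
          simp only [hB]
          have h6 : (2 - 1 : ℕ) = 1 := rfl
          rw [h6, pow_one]
          have h7 : 1 - t ^ 2 = (1 - t) * (1 + t) := by ring
          rw [h7]
          field_simp
          ring
        rw [h4]
        have h8 : 0 < ‖F 0 - p‖ * ((1 + t) / (1 - t)) ^ 2 * (Real.exp (η * t) * η) := by positivity
        linarith)
    have h9 := hmain (⟨hxp.le, le_refl _⟩ : ‖x‖ ∈ Icc (0 : ℝ) ‖x‖)
    have h10 : ((‖x‖ : ℝ) : ℂ) * v = x := by
      rw [hv, mul_div_cancel₀]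
      exact_mod_cast hxp.ne'
    simp only [h10, hB] at h9
    exact h9
  have hlim : Tendsto (fun η : ℝ => ‖F 0 - p‖ * ((1 + ‖x‖) / (1 - ‖x‖)) ^ 2 * Real.exp (η * ‖x‖))
      (𝓝[>] 0) (𝓝 (‖F 0 - p‖ * ((1 + ‖x‖) / (1 - ‖x‖)) ^ 2 * Real.exp (0 * ‖x‖))) := by
    refine Tendsto.mono_left ?_ nhdsWithin_le_nhds
    exact (Continuous.tendsto (by fun_prop) 0)
  have h1 := ge_of_tendsto hlim (eventually_nhdsWithin_of_forall (fun η hη => key η hη))
  simpa using h1

/-- an injective function omits a value of modulus less than any number greater than `‖F' 0‖`. -/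
theorem omit_small (F : ℂ → ℂ) (hd : DifferentiableOn ℂ F UD) (hi : InjOn F UD) (h0 : F 0 = 0)
    (R : ℝ) (hR : ‖deriv F 0‖ < R) : ∃ p : ℂ, ‖p‖ < R ∧ ∀ z ∈ UD, F z ≠ p := by
  by_contra hc
  push Not at hc
  have hR0 : 0 < R := lt_of_le_of_lt (norm_nonneg _) hR
  have hrm : RM (F '' UD) 0 F := ⟨hd, hi, rfl, h0⟩
  obtain ⟨χ, h1, h2, h3⟩ := DST_inv V3.KO0 hrm
  have hsub : ball (0 : ℂ) R ⊆ F '' UD := by
    intro p hp
    obtain ⟨z, hz, h⟩ := hc p (by simpa using hp)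
    exact ⟨z, hz, h⟩
  have hχ0 : χ 0 = 0 := by
    have := h2 0 zero_UD
    rwa [h0] at this
  have hs := Complex.norm_deriv_le_div_of_mapsTo_ball (f := χ) (c := 0) (R₁ := R) (R₂ := 1)
    (h3.mono hsub) (by
      intro z hz
      rw [hχ0]
      exact ball_subset_closedBall (h1 z (hsub hz)).1) hR0
  have hFd0 : HasDerivAt F (deriv F 0) 0 :=
    (hd.differentiableAt (UD_open.mem_nhds zero_UD)).hasDerivAt
  have hχd : HasDerivAt χ (deriv χ 0) (F 0) := by
    rw [h0]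
    exact ((h3.mono hsub).differentiableAt (ball_mem_nhds 0 hR0)).hasDerivAt
  have h4 := hχd.comp 0 hFd0
  have h5 : (χ ∘ F) =ᶠ[𝓝 0] id := by
    filter_upwards [UD_open.mem_nhds zero_UD] with z hz using h2 z hz
  have h6 : deriv χ 0 * deriv F 0 = 1 :=
    (h4.congr_of_eventuallyEq h5.symm).unique (hasDerivAt_id 0)
  have h7 : ‖deriv χ 0‖ * ‖deriv F 0‖ = 1 := by rw [← norm_mul, h6, norm_one]
  have h8 : ‖deriv χ 0‖ * R ≤ 1 := by
    calc ‖deriv χ 0‖ * R ≤ 1 / R * R := by gcongr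
      _ = 1 := by field_simp
  nlinarith [norm_nonneg (deriv χ 0), norm_nonneg (deriv F 0)]

/-- Pick's inequality for bounded injective functions. -/
theorem PIC (j : ℂ → ℂ) (hj : UN j) (h0 : j 0 = 0) (x : ℂ) (hx : x ∈ UD) :
    ‖j x‖ * (1 - ‖x‖) ^ 2 ≤ 5 * ‖deriv j 0‖ * (1 - ‖j x‖) ^ 2 := by
  by_cases hz : j x = 0
  · rw [hz, norm_zero, zero_mul]; positivity
  have hx1 : ‖x‖ < 1 := by simpa [UD] using hx
  have hn : 0 < ‖j x‖ := norm_pos_iff.2 hz
  have hn1 : ‖j x‖ < 1 := by simpa [UD] using hj.map hx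
  set e : ℂ := (starRingEnd ℂ) (j x) / ‖j x‖ with he
  have he1 : ‖e‖ = 1 := by
    rw [he, norm_div, RCLike.norm_conj, Complex.norm_real, norm_norm, div_self hn.ne']
  have hej : e * j x = ‖j x‖ := by
    rw [he, div_mul_eq_mul_div, Complex.conj_mul', div_eq_iff (by exact_mod_cast hn.ne')]
    push_cast; ring
  have hK : ∀ w ∈ UD, 1 - e * w ≠ 0 := by
    intro w hw h
    have hw1 : ‖w‖ < 1 := by simpa [UD] using hw
    have h2 : e * w = 1 := by linear_combination -h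
    have h3 : ‖e * w‖ = 1 := by rw [h2, norm_one]
    rw [norm_mul, he1, one_mul] at h3
    linarith
  set F : ℂ → ℂ := fun z => j z / (1 - e * j z) ^ 2 with hF
  have hFd : DifferentiableOn ℂ F UD := by
    refine hj.dif.div (((hj.dif.const_mul e).const_sub 1).pow 2) (fun z hz => ?_)
    exact pow_ne_zero 2 (hK _ (hj.map hz))
  have hFi : InjOn F UD := by
    intro z hz w hw h
    have h1 := hK _ (hj.map hz)
    have h2 := hK _ (hj.map hw)
    simp only [hF] at h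
    rw [div_eq_div_iff (pow_ne_zero 2 h1) (pow_ne_zero 2 h2)] at h
    have h3 : (j z - j w) * (1 - e * j z * (e * j w)) = 0 := by linear_combination h
    rcases mul_eq_zero.1 h3 with h4 | h4
    · exact hj.inj hz hw (sub_eq_zero.1 h4)
    · exfalso
      have h5 : ‖e * j z * (e * j w)‖ = 1 := by
        have : e * j z * (e * j w) = 1 := by linear_combination -h4
        rw [this, norm_one]
      rw [norm_mul, norm_mul, norm_mul, he1, one_mul, one_mul] at h5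
      have h6 : ‖j z‖ < 1 := by simpa [UD] using hj.map hz
      have h7 : ‖j w‖ < 1 := by simpa [UD] using hj.map hw
      nlinarith [norm_nonneg (j z), norm_nonneg (j w)]
  have hF0 : F 0 = 0 := by simp [hF, h0]
  have hFd0 : deriv F 0 = deriv j 0 := by
    have h1 : HasDerivAt j (deriv j 0) 0 :=
      (hj.dif.differentiableAt (UD_open.mem_nhds zero_UD)).hasDerivAt
    have h2 : HasDerivAt (fun z => (1 - e * j z) ^ 2) (2 * (1 - e * j 0) ^ (2 - 1) * (-(e * deriv j 0))) 0 := by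
      simpa using ((h1.const_mul e).const_sub 1).fun_pow 2
    have h3 := h1.div h2 (pow_ne_zero 2 (hK _ (hj.map zero_UD)))
    have h4 := h3.deriv
    have h5 : (j / fun z => (1 - e * j z) ^ 2) = F := rfl
    rw [h5] at h4
    rw [h4, h0]
    simp
  have hFx : ‖F x‖ = ‖j x‖ / (1 - ‖j x‖) ^ 2 := by
    simp only [hF]
    rw [hej, norm_div, norm_pow]
    have : ‖(1 : ℂ) - (‖j x‖ : ℂ)‖ = 1 - ‖j x‖ := by
      have h1 : (1 : ℂ) - (‖j x‖ : ℂ) = ((1 - ‖j x‖ : ℝ) : ℂ) := by push_cast; ring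
      rw [h1, Complex.norm_real, Real.norm_eq_abs, abs_of_nonneg (by linarith)]
    rw [this]
  have key : ∀ R : ℝ, ‖deriv j 0‖ < R → ‖j x‖ * (1 - ‖x‖) ^ 2 ≤ 5 * R * (1 - ‖j x‖) ^ 2 := by
    intro R hR
    have hR0 : 0 < R := lt_of_le_of_lt (norm_nonneg _) hR
    obtain ⟨p, hp, hp2⟩ := omit_small F hFd hFi hF0 R (by rw [hFd0]; exact hR)
    have h1 := GRW F hFd hFi p hp2 x hx
    rw [hF0, zero_sub, norm_neg] at h1
    have h2 : ‖F x‖ ≤ ‖F x - p‖ + ‖p‖ := by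
      have := norm_add_le (F x - p) p
      rwa [sub_add_cancel] at this
    have h3 : 0 < 1 - ‖x‖ := by linarith
    have h4 : ((1 + ‖x‖) / (1 - ‖x‖)) ^ 2 ≤ 4 / (1 - ‖x‖) ^ 2 := by
      rw [div_pow]
      gcongr
      nlinarith [norm_nonneg x]
    have h5 : 1 ≤ 1 / (1 - ‖x‖) ^ 2 := by
      rw [le_div_iff₀ (by positivity)]
      nlinarith [norm_nonneg x]
    have h6 : ‖F x‖ ≤ 5 * R / (1 - ‖x‖) ^ 2 := by
      calc ‖F x‖ ≤ ‖p‖ * ((1 + ‖x‖) / (1 - ‖x‖)) ^ 2 + ‖p‖ := by linarith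
        _ ≤ R * (4 / (1 - ‖x‖) ^ 2) + R * (1 / (1 - ‖x‖) ^ 2) := by
          have h7 := norm_nonneg p
          have h8 : ‖p‖ * ((1 + ‖x‖) / (1 - ‖x‖)) ^ 2 ≤ R * (4 / (1 - ‖x‖) ^ 2) := by gcongr
          have h9 : ‖p‖ ≤ R * (1 / (1 - ‖x‖) ^ 2) := by nlinarith
          linarith
        _ = 5 * R / (1 - ‖x‖) ^ 2 := by ring
    rw [hFx, div_le_div_iff₀ (by nlinarith) (by positivity)] at h6
    exact h6
  by_contra hc
  push Not at hc
  have h1 : 0 < (1 - ‖j x‖) ^ 2 := by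
    have : 0 < 1 - ‖j x‖ := by linarith
    positivity
  have h2 : ‖deriv j 0‖ < ‖j x‖ * (1 - ‖x‖) ^ 2 / (5 * (1 - ‖j x‖) ^ 2) := by
    rw [lt_div_iff₀ (by positivity)]
    linarith
  set R := (‖deriv j 0‖ + ‖j x‖ * (1 - ‖x‖) ^ 2 / (5 * (1 - ‖j x‖) ^ 2)) / 2 with hRdef
  have h3 := key R (by rw [hRdef]; linarith)
  have h4 : ‖j x‖ * (1 - ‖x‖) ^ 2 / (5 * (1 - ‖j x‖) ^ 2) ≤ R := by
    rw [div_le_iff₀ (by positivity)]
    linarith
  rw [hRdef] at h4
  linarith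

/-- two point version of Pick's inequality: base point `a`. -/
theorem PIC2 (j : ℂ → ℂ) (hj : UN j) (a : ℂ) (ha : a ∈ UD) (x : ℂ) (hx : x ∈ UD) :
    ‖T (j a) (j x)‖ * (1 - ‖T a x‖) ^ 2 ≤
      5 * (‖deriv j a‖ * (1 - ‖a‖ ^ 2) / (1 - ‖j a‖ ^ 2)) * (1 - ‖T (j a) (j x)‖) ^ 2 := by
  have hb := hj.map ha
  obtain ⟨h1, hT0, hS0, hTd, hSd, hTi, hSi, -, -, -, hS1, -⟩ := MOB a ha
  obtain ⟨g1, gT0, gS0, gTd, gSd, gTi, gSi, -, -, gder, gS1, -⟩ := MOB (j a) hb
  have hSm : MapsTo (S a) UD UD := fun y hy => (h1 y hy).2.1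
  have gTm : MapsTo (T (j a)) UD UD := fun y hy => (g1 y hy).1
  have hj' : UN (fun z => T (j a) (j (S a z))) := by
    refine ⟨gTd.comp (hj.dif.comp hSd hSm) (hj.map.comp hSm), ?_, gTm.comp (hj.map.comp hSm)⟩
    intro z hz w hw h
    exact hSi hz hw (hj.inj (hSm hz) (hSm hw) (gTi (hj.map (hSm hz)) (hj.map (hSm hw)) h))
  have h := PIC (fun z => T (j a) (j (S a z))) hj' (by simp only [hS0, gT0]) (T a x) (h1 x hx).1
  have h2 : S a (T a x) = x := (h1 x hx).2.2.1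
  simp only [h2] at h
  have ha1 : ‖a‖ < 1 := by simpa [UD] using ha
  have hb1 : ‖j a‖ < 1 := by simpa [UD] using hb
  have hpa : 0 < 1 - ‖a‖ ^ 2 := by nlinarith [norm_nonneg a]
  have hpb : 0 < 1 - ‖j a‖ ^ 2 := by nlinarith [norm_nonneg (j a)]
  have hc : HasDerivAt (fun z => T (j a) (j (S a z)))
      ((1 - (‖j a‖ : ℂ) ^ 2) / (1 - (starRingEnd ℂ) (j a) * j a) ^ 2 *
        (deriv j a * (1 - (‖a‖ : ℂ) ^ 2))) 0 := by
    have h6 : HasDerivAt j (deriv j a) (S a 0) := by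
      rw [hS0]; exact (hj.dif.differentiableAt (UD_open.mem_nhds ha)).hasDerivAt
    have h7 : HasDerivAt (S a) (1 - (‖a‖ : ℂ) ^ 2) 0 := by
      rw [← hS1]; exact (hSd.differentiableAt (UD_open.mem_nhds zero_UD)).hasDerivAt
    have h8 : HasDerivAt (T (j a)) ((1 - (‖j a‖ : ℂ) ^ 2) / (1 - (starRingEnd ℂ) (j a) * j a) ^ 2)
        (j (S a 0)) := by
      rw [hS0, ← gder _ hb]
      exact (gTd.differentiableAt (UD_open.mem_nhds hb)).hasDerivAt
    exact h8.comp 0 (h6.comp 0 h7)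
  have hn : ∀ r : ℝ, 0 < 1 - r ^ 2 → ‖(1 : ℂ) - (r : ℂ) ^ 2‖ = 1 - r ^ 2 := by
    intro r hr
    have : (1 : ℂ) - (r : ℂ) ^ 2 = ((1 - r ^ 2 : ℝ) : ℂ) := by push_cast; ring
    rw [this, Complex.norm_real, Real.norm_eq_abs, abs_of_pos hr]
  have h9 : (1 : ℂ) - (starRingEnd ℂ) (j a) * j a = 1 - (‖j a‖ : ℂ) ^ 2 := by
    rw [Complex.conj_mul']
  rw [hc.deriv, h9, norm_mul, norm_mul, norm_div, norm_pow, hn _ hpa, hn _ hpb] at h
  have h10 : (1 - ‖j a‖ ^ 2) / (1 - ‖j a‖ ^ 2) ^ 2 * (‖deriv j a‖ * (1 - ‖a‖ ^ 2)) =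
      ‖deriv j a‖ * (1 - ‖a‖ ^ 2) / (1 - ‖j a‖ ^ 2) := by
    field_simp
  rw [h10] at h
  exact h

/-- sharp Koebe theorem on a general disc. -/
theorem K4 (G : ℂ → ℂ) (a : ℂ) (r : ℝ) (hr : 0 < r) (hd : DifferentiableOn ℂ G (ball a r))
    (hi : InjOn G (ball a r)) : ball (G a) (r * ‖deriv G a‖ / 4) ⊆ G '' ball a r := by
  intro p hp
  by_contra hc
  have hmap : MapsTo (fun z : ℂ => a + r * z) UD (ball a r) := by
    intro z hz
    have hz1 : ‖z‖ < 1 := by simpa [UD] using hz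
    rw [mem_ball, dist_eq_norm, add_sub_cancel_left, norm_mul, Complex.norm_real, Real.norm_eq_abs,
      abs_of_pos hr]
    nlinarith
  have h := K4u (fun z => G (a + r * z)) (hd.comp (by fun_prop) hmap) (fun z hz w hw h => by
    have h1 := hi (hmap hz) (hmap hw) h
    have h2 : (r : ℂ) * z = r * w := by linear_combination h1
    exact mul_left_cancel₀ (by exact_mod_cast hr.ne') h2) p (fun z hz h => hc ⟨_, hmap hz, h⟩)
  have hc2 : HasDerivAt (fun z : ℂ => G (a + r * z)) (deriv G a * r) 0 := by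
    have h1 : HasDerivAt G (deriv G a) (a + r * 0) := by
      rw [mul_zero, add_zero]
      exact (hd.differentiableAt (isOpen_ball.mem_nhds (mem_ball_self hr))).hasDerivAt
    have h2 : HasDerivAt (fun z : ℂ => a + r * z) r 0 := by
      simpa using ((hasDerivAt_id (0 : ℂ)).const_mul (r : ℂ)).const_add a
    exact h1.comp 0 h2
  rw [hc2.deriv, mul_zero, add_zero, norm_mul, Complex.norm_real, Real.norm_eq_abs, abs_of_pos hr] at h
  rw [mem_ball, dist_comm, dist_eq_norm] at hp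
  nlinarith

end EDP
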