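import Pool.Agent.helper52.HY.Spec
import Pool.Agent.helper38.V3.KO0

/-!
# Sharp Koebe theorem, part 1: the Bieberbach-Eilenberg theorem for injective functions

`m` injective holomorphic on the unit disc, `m 0 = 0`, `m z * m w ≠ 1`: then `‖m' 0‖ ≤ 1`.
Proof by areas in the metric `|dw|/|w|`.
-/

set_option autoImplicit false

open Complex Metric Set Filter Topology MeasureTheory
open scoped ENNReal

noncomputable section

namespace EDP

open HY

theorem BE_det (d : ℂ) :
    ((ContinuousLinearMap.toSpanSingleton ℂ d).restrictScalars ℝ : ℂ →L[ℝ] ℂ).det = ‖d‖ ^ 2 := by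
  rw [ContinuousLinearMap.det]
  have h := LinearMap.det_restrictScalars (A := ℂ) (R := ℝ) (S := ℂ)
    (f := (ContinuousLinearMap.toSpanSingleton ℂ d : ℂ →ₗ[ℂ] ℂ))
  have h2 : ((((ContinuousLinearMap.toSpanSingleton ℂ d).restrictScalars ℝ : ℂ →L[ℝ] ℂ)) :
      ℂ →ₗ[ℝ] ℂ) = (ContinuousLinearMap.toSpanSingleton ℂ d : ℂ →ₗ[ℂ] ℂ).restrictScalars ℝ := rfl
  rw [h2, h]
  simp [Algebra.norm_complex_apply, Complex.normSq_eq_norm_sq]

/-- the rectangle `a ≤ re ≤ b`, `0 < im < 2π`. -/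
def Rt (a b : ℝ) : Set ℂ := {u | (a ≤ u.re ∧ u.re ≤ b) ∧ (0 < u.im ∧ u.im < 2 * Real.pi)}

theorem Rt_meas (a b : ℝ) : MeasurableSet (Rt a b) := by
  refine ((measurableSet_le measurable_const Complex.measurable_re).inter
    (measurableSet_le Complex.measurable_re measurable_const)).inter
    ((measurableSet_lt measurable_const Complex.measurable_im).inter
    (measurableSet_lt Complex.measurable_im measurable_const))

/-- integrals over the rectangle. -/
theorem Rt_lint (a b : ℝ) (F : ℂ → ℝ≥0∞) (G : ℝ × ℝ → ℝ≥0∞)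
    (hG : ∀ p ∈ Icc a b ×ˢ Ioo (0 : ℝ) (2 * Real.pi), G p = F (p.1 + p.2 * I))
    (hF : AEMeasurable G (volume.restrict (Icc a b ×ˢ Ioo (0 : ℝ) (2 * Real.pi)))) :
    ∫⁻ u in Rt a b, F u = ∫⁻ x in Icc a b, ∫⁻ y in Ioo (0 : ℝ) (2 * Real.pi), G (x, y) := by
  have h1 : Rt a b = Complex.measurableEquivRealProd ⁻¹' (Icc a b ×ˢ Ioo (0 : ℝ) (2 * Real.pi)) := by
    ext u
    simp [Rt, Complex.measurableEquivRealProd_apply]
  have h2 := Complex.volume_preserving_equiv_real_prod.setLIntegral_comp_preimage_emb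
    (Complex.measurableEquivRealProd.measurableEmbedding)
    (fun p => F (Complex.measurableEquivRealProd.symm p)) (Icc a b ×ˢ Ioo (0 : ℝ) (2 * Real.pi))
  have h3 : ∀ u, F (Complex.measurableEquivRealProd.symm (Complex.measurableEquivRealProd u)) = F u := by
    intro u; rw [MeasurableEquiv.symm_apply_apply]
  simp only [h3] at h2
  rw [h1, h2]
  have hm : MeasurableSet (Icc a b ×ˢ Ioo (0 : ℝ) (2 * Real.pi)) :=
    measurableSet_Icc.prod measurableSet_Ioo
  have h4 : ∫⁻ p in Icc a b ×ˢ Ioo (0 : ℝ) (2 * Real.pi), F (Complex.measurableEquivRealProd.symm p)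
      = ∫⁻ p in Icc a b ×ˢ Ioo (0 : ℝ) (2 * Real.pi), G p := by
    refine setLIntegral_congr_fun hm (fun p hp => ?_)
    rw [hG p hp]
    congr 1
    apply Complex.ext <;> simp [Complex.measurableEquivRealProd_symm_apply]
  rw [h4]
  rw [Measure.volume_eq_prod, ← Measure.prod_restrict] at hF ⊢
  exact lintegral_prod G hF

theorem Rt_vol (a b : ℝ) :
    volume (Rt a b) = ENNReal.ofReal (b - a) * ENNReal.ofReal (2 * Real.pi) := by
  have h := Rt_lint a b (fun _ => 1) (fun _ => 1) (fun _ _ => rfl) aemeasurable_const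
  rw [setLIntegral_one] at h
  rw [h]
  simp [mul_comm]

/-- mean value on a circle. -/
theorem BE_mean (q : ℂ → ℂ) (hq : DifferentiableOn ℂ q UD) (R : ℝ) (h0 : 0 < R) (h1 : R < 1) :
    ∫ θ in (0 : ℝ)..(2 * Real.pi), q (circleMap 0 R θ) = 2 * Real.pi * q 0 := by
  have hsub : closedBall (0 : ℂ) R ⊆ UD := by
    intro z hz
    have hz2 : ‖z‖ ≤ R := by simpa using hz
    have : ‖z‖ < 1 := lt_of_le_of_lt hz2 h1
    simpa [UD] using this
  have hd : DiffContOnCl ℂ q (ball 0 R) := (hq.mono hsub).diffContOnCl_ball Subset.rfl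
  have h2 := hd.circleIntegral_sub_inv_smul (w := 0) (mem_ball_self h0)
  rw [circleIntegral] at h2
  have h3 : ∀ θ : ℝ, deriv (circleMap 0 R) θ • ((circleMap 0 R θ - 0)⁻¹ • q (circleMap 0 R θ))
      = I * q (circleMap 0 R θ) := by
    intro θ
    rw [deriv_circleMap, sub_zero, smul_eq_mul, smul_eq_mul]
    have h4 : circleMap 0 R θ ≠ 0 := circleMap_ne_center h0.ne'
    field_simp
  simp only [h3] at h2
  rw [intervalIntegral.integral_const_mul] at h2
  rw [smul_eq_mul] at h2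
  have h5 : I * (∫ θ in (0 : ℝ)..(2 * Real.pi), q (circleMap 0 R θ)) = I * (2 * Real.pi * q 0) := by
    rw [h2]; ring
  exact mul_left_cancel₀ I_ne_zero h5

/-- mean of the square. -/
theorem BE_inner (q : ℂ → ℂ) (hq : DifferentiableOn ℂ q UD) (h1 : q 0 = 1) (R : ℝ) (h0 : 0 < R)
    (hR : R < 1) :
    ENNReal.ofReal (2 * Real.pi) ≤
      ∫⁻ θ in Ioo (0 : ℝ) (2 * Real.pi), ENNReal.ofReal (‖q (circleMap 0 R θ)‖ ^ 2) := by
  have hc : Continuous (fun θ : ℝ => q (circleMap 0 R θ)) := by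
    have h2 : ContinuousOn q UD := hq.continuousOn
    refine h2.comp_continuous (continuous_circleMap 0 R) (fun θ => ?_)
    have : ‖circleMap 0 R θ‖ = R := by rw [norm_circleMap_zero, abs_of_pos h0]
    simpa [UD, this] using hR
  have hm := BE_mean q hq R h0 hR
  have hpi := Real.pi_pos
  have h2 : ∫ θ in (0 : ℝ)..(2 * Real.pi), (2 * (q (circleMap 0 R θ)).re - 1) = 2 * Real.pi := by
    have h3 : ∫ θ in (0 : ℝ)..(2 * Real.pi), (q (circleMap 0 R θ)).re = 2 * Real.pi := by
      have h4 : ∫ θ in (0 : ℝ)..(2 * Real.pi), (q (circleMap 0 R θ)).re =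
          (∫ θ in (0 : ℝ)..(2 * Real.pi), q (circleMap 0 R θ)).re := by
        have := Complex.reCLM.intervalIntegral_comp_comm (a := (0 : ℝ)) (b := 2 * Real.pi)
          (μ := volume) (f := fun θ : ℝ => q (circleMap 0 R θ)) (hc.intervalIntegrable _ _)
        simpa using this
      rw [h4, hm, h1]
      simp
    rw [intervalIntegral.integral_sub, intervalIntegral.integral_const_mul, h3,
      intervalIntegral.integral_const]
    · simp; ring
    · exact ((continuous_const.mul (Complex.continuous_re.comp hc))).intervalIntegrable _ _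
    · exact continuous_const.intervalIntegrable _ _
  have h3 : 2 * Real.pi ≤ ∫ θ in (0 : ℝ)..(2 * Real.pi), ‖q (circleMap 0 R θ)‖ ^ 2 := by
    refine h2.symm.le.trans ?_
    refine intervalIntegral.integral_mono_on (by positivity) ?_ ?_ (fun θ _ => ?_)
    · exact ((continuous_const.mul (Complex.continuous_re.comp hc)).sub
        continuous_const).intervalIntegrable _ _
    · exact (hc.norm.pow 2).intervalIntegrable _ _
    · have h4 : ‖q (circleMap 0 R θ)‖ ^ 2 =
          (q (circleMap 0 R θ)).re ^ 2 + (q (circleMap 0 R θ)).im ^ 2 := by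
        rw [Complex.sq_norm, Complex.normSq_apply]; ring
      rw [h4]
      nlinarith [sq_nonneg ((q (circleMap 0 R θ)).re - 1), sq_nonneg (q (circleMap 0 R θ)).im]
  rw [intervalIntegral.integral_of_le (by positivity), integral_Ioc_eq_integral_Ioo] at h3
  rw [← ofReal_integral_eq_lintegral_ofReal]
  · exact ENNReal.ofReal_le_ofReal h3
  · have := ((hc.norm.pow 2).intervalIntegrable (μ := volume) 0 (2 * Real.pi))
    rw [intervalIntegrable_iff_integrableOn_Ioo_of_le (by positivity)] at this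
    exact this
  · exact Filter.Eventually.of_forall (fun θ => by positivity)

/-- lower bound of the area. -/
theorem BE_low (q : ℂ → ℂ) (hq : DifferentiableOn ℂ q UD) (h1 : q 0 = 1) (a b : ℝ) (hb : b < 0) :
    ENNReal.ofReal (b - a) * ENNReal.ofReal (2 * Real.pi) ≤
      ∫⁻ u in Rt a b, ENNReal.ofReal (‖q (exp u)‖ ^ 2) := by
  have hE : ∀ p : ℝ × ℝ, exp ((p.1 : ℂ) + p.2 * I) = circleMap 0 (Real.exp p.1) p.2 := by
    intro p
    rw [circleMap, Complex.exp_add]
    push_cast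
    ring
  have hF : ContinuousOn (fun p : ℝ × ℝ => ENNReal.ofReal (‖q (circleMap 0 (Real.exp p.1) p.2)‖ ^ 2))
      (Icc a b ×ˢ Ioo (0 : ℝ) (2 * Real.pi)) := by
    refine ENNReal.continuous_ofReal.comp_continuousOn ?_
    refine ContinuousOn.pow ?_ 2
    refine ContinuousOn.norm ?_
    refine hq.continuousOn.comp ?_ ?_
    · refine Continuous.continuousOn ?_
      have : (fun p : ℝ × ℝ => circleMap 0 (Real.exp p.1) p.2) =
          fun p : ℝ × ℝ => exp ((p.1 : ℂ) + p.2 * I) := by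
        funext p; rw [hE]
      rw [this]
      fun_prop
    · intro p hp
      have h2 : Real.exp p.1 < 1 := by
        rw [Real.exp_lt_one_iff] 
        exact lt_of_le_of_lt hp.1.2 hb
      have : ‖circleMap 0 (Real.exp p.1) p.2‖ < 1 := by
        rw [norm_circleMap_zero, abs_of_pos (Real.exp_pos _)]; exact h2
      simpa [UD] using this
  rw [Rt_lint a b (fun u => ENNReal.ofReal (‖q (exp u)‖ ^ 2))
    (fun p => ENNReal.ofReal (‖q (circleMap 0 (Real.exp p.1) p.2)‖ ^ 2))
    (fun p _ => by simp only [hE]) (hF.aemeasurable (measurableSet_Icc.prod measurableSet_Ioo))]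
  calc ENNReal.ofReal (b - a) * ENNReal.ofReal (2 * Real.pi)
      = ∫⁻ _x in Icc a b, ENNReal.ofReal (2 * Real.pi) := by
        rw [setLIntegral_const, Real.volume_Icc, mul_comm]
    _ ≤ _ := by
        refine setLIntegral_mono' measurableSet_Icc (fun x hx => ?_)
        exact BE_inner q hq h1 (Real.exp x) (Real.exp_pos _)
          (by rw [Real.exp_lt_one_iff]; exact lt_of_le_of_lt hx.2 hb)

/-- the area of the image in the metric `|dw|/|w|`. -/
theorem BE_cov (a b : ℝ) (E : ℂ → ℂ) (Q : ℂ → ℂ)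
    (hE : ∀ u ∈ Rt a b, HasDerivAt E (Q u * E u) u) (hi : InjOn E (Rt a b))
    (h0 : ∀ u ∈ Rt a b, E u ≠ 0) :
    ∫⁻ x in E '' Rt a b, ENNReal.ofReal (1 / ‖x‖ ^ 2) = ∫⁻ u in Rt a b, ENNReal.ofReal (‖Q u‖ ^ 2) := by
  have h1 : ∀ y ∈ Rt a b, HasFDerivWithinAt E
      ((ContinuousLinearMap.toSpanSingleton ℂ (Q y * E y)).restrictScalars ℝ : ℂ →L[ℝ] ℂ)
      (Rt a b) y := by
    intro y hy
    exact ((hE y hy).hasFDerivAt.restrictScalars ℝ).hasFDerivWithinAt
  rw [lintegral_image_eq_lintegral_abs_det_fderiv_mul volume (Rt_meas a b) h1 hi]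
  refine setLIntegral_congr_fun (Rt_meas a b) (fun ζ hζ => ?_)
  have h2 : ‖E ζ‖ ≠ 0 := norm_ne_zero_iff.2 (h0 ζ hζ)
  rw [BE_det, abs_of_nonneg (by positivity), ← ENNReal.ofReal_mul (by positivity)]
  congr 1
  rw [norm_mul]
  field_simp

/-- the annulus is covered by the image of the rectangle and a null set. -/
theorem BE_ann (l : ℝ) : {w : ℂ | Real.exp (-l) ≤ ‖w‖ ∧ ‖w‖ ≤ Real.exp l} ⊆
    (exp '' Rt (-l) l) ∪ {w : ℂ | w.im = 0} := by
  intro w hw
  by_cases hi : w.im = 0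
  · right; exact hi
  left
  have h0 : w ≠ 0 := by
    rintro rfl; exact hi rfl
  have hn : 0 < ‖w‖ := norm_pos_iff.2 h0
  have h1 : -l ≤ Real.log ‖w‖ := by
    rw [Real.le_log_iff_exp_le hn]; exact hw.1
  have h2 : Real.log ‖w‖ ≤ l := by
    rw [Real.log_le_iff_le_exp hn]; exact hw.2
  have ha : w.arg ≠ 0 := by
    intro h
    rw [Complex.arg_eq_zero_iff] at h
    exact hi h.2
  have ha2 := Complex.arg_le_pi w
  have ha3 := Complex.neg_pi_lt_arg w
  have hpi := Real.pi_pos
  by_cases hp : 0 < w.arg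
  · refine ⟨Complex.log w, ⟨⟨?_, ?_⟩, ?_, ?_⟩, Complex.exp_log h0⟩
    · rw [Complex.log_re]; exact h1
    · rw [Complex.log_re]; exact h2
    · rw [Complex.log_im]; exact hp
    · rw [Complex.log_im]; linarith
  · have hn2 : w.arg < 0 := lt_of_le_of_ne (not_lt.1 hp) ha
    refine ⟨Complex.log w + 2 * Real.pi * I, ⟨⟨?_, ?_⟩, ?_, ?_⟩, ?_⟩
    · simpa [Complex.log_re] using h1
    · simpa [Complex.log_re] using h2
    · have : (Complex.log w + 2 * Real.pi * I).im = w.arg + 2 * Real.pi := by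
        simp [Complex.log_im]
      rw [this]; linarith
    · have : (Complex.log w + 2 * Real.pi * I).im = w.arg + 2 * Real.pi := by
        simp [Complex.log_im]
      rw [this]; linarith
    · rw [Complex.exp_add, Complex.exp_log h0, Complex.exp_two_pi_mul_I, mul_one]

theorem BE_null : volume {w : ℂ | w.im = 0} = 0 := by
  have h1 : {w : ℂ | w.im = 0} = (LinearMap.ker Complex.imLm : Set ℂ) := by
    ext w; simp
  rw [h1]
  refine Measure.addHaar_submodule volume _ ?_
  intro h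
  have h2 : (I : ℂ) ∈ LinearMap.ker Complex.imLm := by rw [h]; trivial
  simp at h2

theorem Rt_exp_inj (a b : ℝ) : InjOn exp (Rt a b) := by
  intro u hu v hv h
  rw [Complex.exp_eq_exp_iff_exists_int] at h
  obtain ⟨n, hn⟩ := h
  have h1 : u.im = v.im + n * (2 * Real.pi) := by
    have := congrArg Complex.im hn
    simpa using this
  have hpi := Real.pi_pos
  have hu2 := hu.2
  have hv2 := hv.2
  have h2 : n = 0 := by
    have h3 : (n : ℝ) < 1 := by
      by_contra hc
      push Not at hc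
      nlinarith
    have h4 : (-1 : ℝ) < n := by
      by_contra hc
      push Not at hc
      nlinarith
    have h5 : n < 1 := by exact_mod_cast h3
    have h6 : -1 < n := by exact_mod_cast h4
    omega
  rw [hn, h2]; simp

theorem BE_up (l : ℝ) (hl : 0 ≤ l) (S : Set ℂ)
    (hS : S ⊆ {w : ℂ | Real.exp (-l) ≤ ‖w‖ ∧ ‖w‖ ≤ Real.exp l}) :
    ∫⁻ x in S, ENNReal.ofReal (1 / ‖x‖ ^ 2) ≤ ENNReal.ofReal (2 * l) * ENNReal.ofReal (2 * Real.pi) := by
  calc ∫⁻ x in S, ENNReal.ofReal (1 / ‖x‖ ^ 2)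
      ≤ ∫⁻ x in (exp '' Rt (-l) l) ∪ {w : ℂ | w.im = 0}, ENNReal.ofReal (1 / ‖x‖ ^ 2) :=
        lintegral_mono_set (hS.trans (BE_ann l))
    _ ≤ (∫⁻ x in exp '' Rt (-l) l, ENNReal.ofReal (1 / ‖x‖ ^ 2)) +
        (∫⁻ x in {w : ℂ | w.im = 0}, ENNReal.ofReal (1 / ‖x‖ ^ 2)) := lintegral_union_le _ _ _
    _ = ∫⁻ x in exp '' Rt (-l) l, ENNReal.ofReal (1 / ‖x‖ ^ 2) := by
        rw [setLIntegral_measure_zero _ _ BE_null, add_zero]
    _ = ∫⁻ u in Rt (-l) l, ENNReal.ofReal (‖(1 : ℂ)‖ ^ 2) := by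
        refine BE_cov (-l) l exp (fun _ => 1) (fun u _ => ?_) (Rt_exp_inj _ _) (fun u _ => exp_ne_zero u)
        rw [one_mul]; exact Complex.hasDerivAt_exp u
    _ = ENNReal.ofReal (2 * l) * ENNReal.ofReal (2 * Real.pi) := by
        rw [norm_one, one_pow, ENNReal.ofReal_one, setLIntegral_one, Rt_vol]
        congr 2; ring

/-- an injective map covers the disc of radius the minimum on the circle. -/
theorem BE_cover (m : ℂ → ℂ) (hd : DifferentiableOn ℂ m UD) (hi : InjOn m UD) (h0 : m 0 = 0)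
    (ρ δ : ℝ) (hρ0 : 0 < ρ) (hρ : ρ < 1) (hδ : ∀ z : ℂ, ‖z‖ = ρ → δ ≤ ‖m z‖) :
    ball (0 : ℂ) δ ⊆ m '' ball 0 ρ := by
  by_cases hδ0 : δ ≤ 0
  · rw [ball_eq_empty.2 hδ0]; exact empty_subset _
  push Not at hδ0
  have hUo : IsOpen UD := isOpen_ball
  have hsub : closedBall (0 : ℂ) ρ ⊆ UD := by
    intro z hz
    have hz2 : ‖z‖ ≤ ρ := by simpa using hz
    have : ‖z‖ < 1 := lt_of_le_of_lt hz2 hρ
    simpa [UD] using this
  have hb : ball (0 : ℂ) ρ ⊆ UD := ball_subset_closedBall.trans hsub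
  have hop : IsOpen (m '' ball 0 ρ) := by
    have han : AnalyticOnNhd ℂ m UD := hd.analyticOnNhd hUo
    rcases han.is_constant_or_isOpen (convex_ball (0 : ℂ) 1).isPreconnected with h | h
    · exfalso
      obtain ⟨w, hw⟩ := h
      have hx : ((ρ : ℂ)) ∈ UD := by
        have : ‖(ρ : ℂ)‖ < 1 := by rw [Complex.norm_real, Real.norm_eq_abs, abs_of_pos hρ0]; exact hρ
        simpa [UD] using this
      have hz : (0 : ℂ) ∈ UD := by simp [UD]
      have := hi hx hz ((hw _ hx).trans (hw _ hz).symm)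
      have h3 : ρ = 0 := by exact_mod_cast this
      linarith
    · exact h _ hb isOpen_ball
  have hcl : IsClosed (m '' closedBall 0 ρ) :=
    ((isCompact_closedBall (0 : ℂ) ρ).image_of_continuousOn (hd.continuousOn.mono hsub)).isClosed
  refine IsPreconnected.subset_left_of_subset_union hop hcl.isOpen_compl ?_ ?_ ?_
    (convex_ball (0 : ℂ) δ).isPreconnected
  · rw [Set.disjoint_compl_right_iff_subset]
    exact image_mono ball_subset_closedBall
  · intro w hw
    have hw2 : ‖w‖ < δ := by simpa using hw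
    by_cases hc : w ∈ m '' closedBall 0 ρ
    · left
      obtain ⟨z, hz, rfl⟩ := hc
      have hz2 : ‖z‖ ≤ ρ := by simpa using hz
      rcases hz2.lt_or_eq with h | h
      · exact ⟨z, by simpa using h, rfl⟩
      · exact absurd (hδ z h) (not_le.2 hw2)
    · right; exact hc
  · exact ⟨0, by simpa using hδ0, 0, by simpa using hρ0, h0⟩

/-- the main inequality: one pair `ρ, δ`. -/
theorem BE_ineq (m : ℂ → ℂ) (hd : DifferentiableOn ℂ m UD) (hi : InjOn m UD) (h0 : m 0 = 0)
    (hm : ∀ z ∈ UD, ∀ w ∈ UD, m z * m w ≠ 1) (hd0 : deriv m 0 ≠ 0) (l a b : ℝ) (hl : 0 ≤ l)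
    (hab : a ≤ b) (hb : b < 0) (hδ : ∀ z : ℂ, ‖z‖ = Real.exp a → Real.exp (-l) ≤ ‖m z‖) :
    b - a ≤ l := by
  have hUo : IsOpen UD := isOpen_ball
  have hz0 : (0 : ℂ) ∈ UD := by simp [UD]
  have ha0 : Real.exp a < 1 := by rw [Real.exp_lt_one_iff]; linarith
  have hcov := BE_cover m hd hi h0 (Real.exp a) (Real.exp (-l)) (Real.exp_pos _) ha0 hδ
  have hb0 : ball (0 : ℂ) (Real.exp a) ⊆ UD := ball_subset_ball ha0.le
  -- lower bound of `m`
  have hlow : ∀ z ∈ UD, Real.exp a ≤ ‖z‖ → Real.exp (-l) ≤ ‖m z‖ := by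
    intro z hz hz2
    by_contra hc
    push Not at hc
    obtain ⟨z', hz', h⟩ := hcov (show m z ∈ ball (0 : ℂ) (Real.exp (-l)) by simpa using hc)
    have := hi (hb0 hz') hz h
    rw [this] at hz'
    have : ‖z‖ < Real.exp a := by simpa using hz'
    linarith
  have hupp : ∀ z ∈ UD, ‖m z‖ ≤ Real.exp l := by
    intro z hz
    by_contra hc
    push Not at hc
    have hne : m z ≠ 0 := by
      intro h; rw [h, norm_zero] at hc; linarith [Real.exp_pos l]
    have h1 : ‖(m z)⁻¹‖ < Real.exp (-l) := by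
      rw [norm_inv, Real.exp_neg]
      exact inv_strictAnti₀ (Real.exp_pos l) hc
    obtain ⟨z', hz', h⟩ := hcov (show (m z)⁻¹ ∈ ball (0 : ℂ) (Real.exp (-l)) by simpa using h1)
    exact hm z hz z' (hb0 hz') (by rw [h, mul_inv_cancel₀ hne])
  -- the function `q`
  have hds : DifferentiableOn ℂ (dslope m 0) UD :=
    (Complex.differentiableOn_dslope (hUo.mem_nhds hz0)).2 hd
  have hdm : DifferentiableOn ℂ (deriv m) UD := hd.deriv hUo
  have hne : ∀ z ∈ UD, dslope m 0 z ≠ 0 := by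
    intro z hz
    by_cases hz2 : z = 0
    · rw [hz2, dslope_same]; exact hd0
    · rw [dslope_of_ne _ hz2, slope_def_field, h0, sub_zero, sub_zero]
      refine div_ne_zero ?_ hz2
      intro h
      exact hz2 (hi hz hz0 (h.trans h0.symm))
  set q : ℂ → ℂ := fun z => deriv m z / dslope m 0 z with hq
  have hqd : DifferentiableOn ℂ q UD := hdm.div hds hne
  have hq0 : q 0 = 1 := by simp only [hq, dslope_same]; exact div_self hd0
  have hmz : ∀ z ∈ UD, z ≠ 0 → m z ≠ 0 := by
    intro z hz hz2 h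
    exact hz2 (hi hz hz0 (h.trans h0.symm))
  have hqm : ∀ z ∈ UD, z ≠ 0 → q z * m z = z * deriv m z := by
    intro z hz hz2
    have h1 : dslope m 0 z = m z / z := by
      rw [dslope_of_ne _ hz2, slope_def_field, h0, sub_zero, sub_zero]
    have h2 := hmz z hz hz2
    simp only [hq, h1]
    field_simp
  -- points of the rectangle
  have hu : ∀ u ∈ Rt a b, exp u ∈ UD ∧ Real.exp a ≤ ‖exp u‖ := by
    intro u hu
    rw [Complex.norm_exp]
    refine ⟨?_, Real.exp_le_exp.2 hu.1.1⟩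
    have : ‖exp u‖ < 1 := by
      rw [Complex.norm_exp, Real.exp_lt_one_iff]; linarith [hu.1.2]
    simpa [UD] using this
  set E : ℂ → ℂ := fun u => m (exp u) with hE
  set E' : ℂ → ℂ := fun u => (m (exp u))⁻¹ with hE'
  have hEne : ∀ u ∈ Rt a b, E u ≠ 0 := fun u h => hmz _ (hu u h).1 (exp_ne_zero u)
  have hEi : InjOn E (Rt a b) := by
    intro u h v h' he
    exact Rt_exp_inj a b h h' (hi (hu u h).1 (hu v h').1 he)
  have hEi' : InjOn E' (Rt a b) := by
    intro u h v h' he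
    exact hEi h h' (inv_injective he)
  have hEd : ∀ u ∈ Rt a b, HasDerivAt E (q (exp u) * E u) u := by
    intro u h
    have h1 : HasDerivAt m (deriv m (exp u)) (exp u) :=
      (hd.differentiableAt (hUo.mem_nhds (hu u h).1)).hasDerivAt
    have h2 := h1.comp u (Complex.hasDerivAt_exp u)
    have h3 : q (exp u) * E u = deriv m (exp u) * exp u := by
      simp only [hE]
      rw [hqm _ (hu u h).1 (exp_ne_zero u)]; ring
    rw [h3]
    exact h2
  have hEd' : ∀ u ∈ Rt a b, HasDerivAt E' (-q (exp u) * E' u) u := by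
    intro u h
    have h1 := (hEd u h).inv (hEne u h)
    have h3 : -(q (exp u) * E u) / E u ^ 2 = -q (exp u) * E' u := by
      have := hEne u h
      have h4 : E' u = (E u)⁻¹ := rfl
      rw [h4]
      field_simp
    rw [h3] at h1
    exact h1
  have hc1 := BE_cov a b E (fun u => q (exp u)) hEd hEi hEne
  have hc2 := BE_cov a b E' (fun u => -q (exp u)) hEd' hEi' (fun u h => inv_ne_zero (hEne u h))
  simp only [norm_neg] at hc2
  have hl1 := BE_low q hqd hq0 a b hb
  have hmeas : MeasurableSet (E' '' Rt a b) := by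
    refine (Rt_meas a b).image_of_continuousOn_injOn ?_ hEi'
    intro u h
    exact (hEd' u h).continuousAt.continuousWithinAt
  have hdisj : Disjoint (E '' Rt a b) (E' '' Rt a b) := by
    rw [Set.disjoint_left]
    rintro w ⟨u, h, rfl⟩ ⟨v, h', he⟩
    refine hm (exp u) (hu u h).1 (exp v) (hu v h').1 ?_
    have h1 : m (exp u) = (m (exp v))⁻¹ := he.symm
    rw [h1, inv_mul_cancel₀ (hEne v h')]
  have hun := lintegral_union (μ := volume) (f := fun x : ℂ => ENNReal.ofReal (1 / ‖x‖ ^ 2)) hmeas hdisj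
  have hup := BE_up l hl (E '' Rt a b ∪ E' '' Rt a b) (by
    rintro w (⟨u, h, rfl⟩ | ⟨u, h, rfl⟩)
    · exact ⟨hlow _ (hu u h).1 (hu u h).2, hupp _ (hu u h).1⟩
    · have h1 := hlow _ (hu u h).1 (hu u h).2
      have h2 := hupp _ (hu u h).1
      have h3 : 0 < ‖m (exp u)‖ := norm_pos_iff.2 (hEne u h)
      constructor
      · change Real.exp (-l) ≤ ‖(m (exp u))⁻¹‖
        rw [norm_inv, Real.exp_neg]
        exact inv_anti₀ h3 h2
      · change ‖(m (exp u))⁻¹‖ ≤ Real.exp l
        rw [norm_inv]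
        rw [inv_le_comm₀ h3 (Real.exp_pos l), ← Real.exp_neg]
        exact h1)
  rw [hun, hc1, hc2] at hup
  have h5 : ENNReal.ofReal (b - a) * ENNReal.ofReal (2 * Real.pi) +
      ENNReal.ofReal (b - a) * ENNReal.ofReal (2 * Real.pi) ≤
      ENNReal.ofReal (2 * l) * ENNReal.ofReal (2 * Real.pi) := (add_le_add hl1 hl1).trans hup
  have hpi := Real.pi_pos
  rw [← ENNReal.ofReal_mul (by linarith), ← ENNReal.ofReal_mul (by linarith),
    ← ENNReal.ofReal_add (by nlinarith) (by nlinarith),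
    ENNReal.ofReal_le_ofReal_iff (by positivity)] at h5
  nlinarith

/-- the Bieberbach-Eilenberg theorem for injective functions. -/
theorem BE (m : ℂ → ℂ) (hd : DifferentiableOn ℂ m UD) (hi : InjOn m UD) (h0 : m 0 = 0)
    (hm : ∀ z ∈ UD, ∀ w ∈ UD, m z * m w ≠ 1) : ‖deriv m 0‖ ≤ 1 := by
  have hUo : IsOpen UD := isOpen_ball
  have hz0 : (0 : ℂ) ∈ UD := by simp [UD]
  by_contra hc
  push Not at hc
  have hd0 : deriv m 0 ≠ 0 := by
    intro h; rw [h, norm_zero] at hc; linarith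
  set c := ‖deriv m 0‖ with hcdef
  -- `c' = (1+c)/2 > 1`
  have hder : HasDerivAt m (deriv m 0) 0 := (hd.differentiableAt (hUo.mem_nhds hz0)).hasDerivAt
  have h1 : ∀ᶠ z in 𝓝 (0 : ℂ), ‖m z - m 0 - (z - 0) • deriv m 0‖ ≤ (c - 1) / 2 * ‖z - 0‖ :=
    (hasDerivAt_iff_isLittleO.1 hder).def (by linarith)
  rw [Metric.eventually_nhds_iff] at h1
  obtain ⟨ε, hε, h1⟩ := h1
  have h2 : ∀ z : ℂ, ‖z‖ < ε → (1 + c) / 2 * ‖z‖ ≤ ‖m z‖ := by
    intro z hz
    have h3 := h1 (show dist z 0 < ε by simpa using hz)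
    rw [h0, sub_zero, sub_zero, smul_eq_mul] at h3
    have h4 : ‖z * deriv m 0‖ ≤ ‖m z‖ + ‖m z - z * deriv m 0‖ := by
      have : z * deriv m 0 = m z - (m z - z * deriv m 0) := by ring
      calc ‖z * deriv m 0‖ = ‖m z - (m z - z * deriv m 0)‖ := by rw [← this]
        _ ≤ _ := norm_sub_le _ _
    rw [norm_mul, ← hcdef] at h4
    nlinarith [norm_nonneg z]
  set t := Real.log ((1 + c) / 2) with ht
  have ht0 : 0 < t := Real.log_pos (by linarith)
  -- choose `a` very negative, `b = -t/2`, `l = -a - t`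
  obtain ⟨a, ha1, ha2⟩ : ∃ a : ℝ, Real.exp a < ε ∧ a ≤ -2 * t := by
    have h3 : Tendsto Real.exp atBot (𝓝 0) := Real.tendsto_exp_atBot
    have h4 := (h3.eventually (gt_mem_nhds hε)).and (eventually_le_atBot (-2 * t))
    obtain ⟨a, h5, h6⟩ := h4.exists
    exact ⟨a, h5, h6⟩
  have h3 := BE_ineq m hd hi h0 hm hd0 (-a - t) a (-t / 2) (by linarith) (by linarith)
    (by linarith) (by
      intro z hz
      have h4 := h2 z (by rw [hz]; exact ha1)
      rw [hz] at h4
      have h5 : Real.exp (-(-a - t)) = (1 + c) / 2 * Real.exp a := by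
        have : -(-a - t) = t + a := by ring
        rw [this, Real.exp_add, ht, Real.exp_log (by linarith)]
      rw [h5]; exact h4)
  linarith

end EDP
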