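import Pool.Agent.helper78.ED.Defs

/-! Module EN of project ED (MP_4467b5_nt): elementary facts on the additive energy. -/

set_option autoImplicit false

open Complex MeasureTheory

namespace Pool.Agent.helper78.ED

open Pool.Agent.helper84.DM

open Classical in
theorem EN_fiber {ι : Type*} (s : Finset ι) (J : ℕ) (g : ι → ℕ) :
    ∑ j ∈ Finset.range J, (s.filter (fun i => g i = j)).card ≤ s.card := by
  rw [Finset.sum_card_fiberwise_eq_card_filter]
  exact Finset.card_filter_le _ _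

open Classical in
/-- the positive part of `rr` -/
noncomputable def EN_rp (Z : Finset ℂ) (j : ℕ) : Finset (ℂ × ℂ) :=
  (Z ×ˢ Z).filter (fun q => q.2.im ≤ q.1.im ∧ ⌊q.1.im - q.2.im⌋₊ = j)

theorem EN_rr_le (Z : Finset ℂ) (j : ℕ) : rr Z j ≤ 2 * (EN_rp Z j).card := by
  classical
  have hsub : (Z ×ˢ Z).filter (fun q => ⌊|q.1.im - q.2.im|⌋₊ = j)
      ⊆ EN_rp Z j ∪ (EN_rp Z j).image Prod.swap := by
    intro q hq
    rw [Finset.mem_filter, Finset.mem_product] at hq
    obtain ⟨⟨h1, h2⟩, h3⟩ := hq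
    rw [Finset.mem_union, Finset.mem_image]
    rcases le_total q.2.im q.1.im with h | h
    · left
      unfold EN_rp
      rw [Finset.mem_filter, Finset.mem_product]
      refine ⟨⟨h1, h2⟩, h, ?_⟩
      rwa [abs_of_nonneg (by linarith)] at h3
    · right
      refine ⟨(q.2, q.1), ?_, rfl⟩
      unfold EN_rp
      rw [Finset.mem_filter, Finset.mem_product]
      refine ⟨⟨h2, h1⟩, h, ?_⟩
      rw [abs_of_nonpos (by linarith), neg_sub] at h3
      exact h3
  have hc := Finset.card_le_card hsub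
  have hrr : rr Z j = ((Z ×ˢ Z).filter (fun q => ⌊|q.1.im - q.2.im|⌋₊ = j)).card := by
    unfold rr
    congr!
  rw [hrr]
  have h1 := Finset.card_union_le (EN_rp Z j) ((EN_rp Z j).image Prod.swap)
  have h2 : ((EN_rp Z j).image (Prod.swap : ℂ × ℂ → ℂ × ℂ)).card ≤ (EN_rp Z j).card :=
    Finset.card_image_le
  omega

theorem EN_floor_close {x y : ℝ} (hx : 0 ≤ x) (hy : 0 ≤ y) (h : ⌊x⌋₊ = ⌊y⌋₊) : |x - y| ≤ 1 := by
  have h1 := Nat.floor_le hx
  have h2 := Nat.lt_floor_add_one x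
  have h3 := Nat.floor_le hy
  have h4 := Nat.lt_floor_add_one y
  rw [h] at h1 h2
  rw [abs_le]
  constructor <;> linarith

theorem EN_rp_sq (Z : Finset ℂ) (J : ℕ) :
    ∑ j ∈ Finset.range J, (EN_rp Z j).card ^ 2 ≤ energy Z := by
  classical
  set Q : Finset ((ℂ × ℂ) × (ℂ × ℂ)) := ((Z ×ˢ Z) ×ˢ (Z ×ˢ Z)).filter
    (fun q => q.1.2.im ≤ q.1.1.im ∧ q.2.2.im ≤ q.2.1.im ∧
      ⌊q.1.1.im - q.1.2.im⌋₊ = ⌊q.2.1.im - q.2.2.im⌋₊) with hQ
  have h1 : ∑ j ∈ Finset.range J, (EN_rp Z j).card ^ 2 ≤ Q.card := by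
    refine le_trans ?_ (EN_fiber Q J (fun q => ⌊q.1.1.im - q.1.2.im⌋₊))
    refine Finset.sum_le_sum fun j _ => ?_
    rw [sq, ← Finset.card_product]
    refine Finset.card_le_card fun q hq => ?_
    rw [Finset.mem_product] at hq
    unfold EN_rp at hq
    rw [Finset.mem_filter, Finset.mem_filter] at hq
    obtain ⟨⟨h1, h2, h3⟩, h4, h5, h6⟩ := hq
    rw [Finset.mem_filter, hQ, Finset.mem_filter, Finset.mem_product]
    exact ⟨⟨⟨h1, h4⟩, h2, h5, h3.trans h6.symm⟩, h3⟩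
  refine h1.trans ?_
  unfold energy
  refine Finset.card_le_card_of_injOn (fun q => ((q.1.1, q.2.2), (q.2.1, q.1.2))) ?_ ?_
  · intro q hq
    rw [hQ] at hq
    have hq' := Finset.mem_coe.mp hq
    rw [Finset.mem_filter, Finset.mem_product, Finset.mem_product, Finset.mem_product] at hq'
    obtain ⟨⟨⟨a1, a2⟩, a3, a4⟩, h1, h2, h3⟩ := hq'
    refine Finset.mem_coe.mpr ?_
    rw [Finset.mem_filter, Finset.mem_product, Finset.mem_product, Finset.mem_product]
    refine ⟨⟨⟨a1, a4⟩, a3, a2⟩, ?_⟩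
    have h4 := EN_floor_close (by linarith) (by linarith) h3
    have e : q.1.1.im + q.2.2.im - q.2.1.im - q.1.2.im
        = (q.1.1.im - q.1.2.im) - (q.2.1.im - q.2.2.im) := by ring
    rw [e]
    exact h4
  · intro p _ q _ hpq
    simp only [Prod.mk.injEq] at hpq
    obtain ⟨⟨h1, h2⟩, h3, h4⟩ := hpq
    exact Prod.ext (Prod.ext h1 h4) (Prod.ext h3 h2)

theorem rr_sq (Z : Finset ℂ) (J : ℕ) :
    ∑ j ∈ Finset.range J, (rr Z j : ℝ) ^ 2 ≤ 4 * (energy Z : ℝ) := by
  have h1 : ∑ j ∈ Finset.range J, (rr Z j) ^ 2 ≤ 4 * energy Z := by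
    calc ∑ j ∈ Finset.range J, (rr Z j) ^ 2
        ≤ ∑ j ∈ Finset.range J, 4 * (EN_rp Z j).card ^ 2 := by
          refine Finset.sum_le_sum fun j _ => ?_
          calc (rr Z j) ^ 2 ≤ (2 * (EN_rp Z j).card) ^ 2 :=
                Nat.pow_le_pow_left (EN_rr_le Z j) 2
            _ = 4 * (EN_rp Z j).card ^ 2 := by ring
      _ = 4 * ∑ j ∈ Finset.range J, (EN_rp Z j).card ^ 2 := by rw [Finset.mul_sum]
      _ ≤ 4 * energy Z := Nat.mul_le_mul_left 4 (EN_rp_sq Z J)
  exact_mod_cast h1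

theorem rr_sum (Z : Finset ℂ) (J : ℕ) :
    ∑ j ∈ Finset.range J, (rr Z j : ℝ) ≤ (Z.card : ℝ) ^ 2 := by
  classical
  have h1 : ∑ j ∈ Finset.range J, rr Z j ≤ Z.card ^ 2 := by
    have h2 := EN_fiber (Z ×ˢ Z) J (fun q => ⌊|q.1.im - q.2.im|⌋₊)
    rw [Finset.card_product, ← sq] at h2
    refine le_trans (le_of_eq ?_) h2
    refine Finset.sum_congr rfl fun j _ => ?_
    unfold rr
    congr!
  exact_mod_cast h1

theorem energy_ge (Z : Finset ℂ) : Z.card ^ 2 ≤ energy Z := by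
  classical
  unfold energy
  rw [sq, ← Finset.card_product]
  refine Finset.card_le_card_of_injOn (fun q => (q, q)) ?_ ?_
  · intro q hq
    have hq' := Finset.mem_coe.mp hq
    refine Finset.mem_coe.mpr ?_
    rw [Finset.mem_filter, Finset.mem_product]
    refine ⟨⟨hq', hq'⟩, ?_⟩
    have e : q.1.im + q.2.im - q.1.im - q.2.im = 0 := by ring
    simp only
    rw [e, abs_zero]
    exact zero_le_one
  · intro p _ q _ hpq
    exact (Prod.mk.inj hpq).1

theorem energy_mono {Z' Z : Finset ℂ} (h : Z' ⊆ Z) : energy Z' ≤ energy Z := by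
  classical
  unfold energy
  refine Finset.card_le_card ?_
  refine Finset.filter_subset_filter _ ?_
  exact Finset.product_subset_product (Finset.product_subset_product h h)
    (Finset.product_subset_product h h)

theorem energy_le (Z : Finset ℂ) : energy Z ≤ Z.card ^ 4 := by
  classical
  unfold energy
  refine (Finset.card_filter_le _ _).trans (le_of_eq ?_)
  rw [Finset.card_product, Finset.card_product]
  ring

theorem energy_triv {T : ℝ} (hT : 0 ≤ T) (Z : Finset ℂ) (hZ : ∀ ρ ∈ Z, 0 ≤ ρ.im ∧ ρ.im ≤ T) :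
    (Z.card : ℝ) ^ 4 ≤ (2 * T + 2) * (energy Z : ℝ) := by
  classical
  set g : ℂ × ℂ → ℕ := fun q => ⌊q.1.im + q.2.im⌋₊ with hg
  set J : ℕ := ⌊2 * T⌋₊ + 1 with hJ
  set s : ℕ → ℕ := fun k => ((Z ×ˢ Z).filter (fun q => g q = k)).card with hs
  have hsum : ∑ k ∈ Finset.range J, s k = Z.card ^ 2 := by
    have h1 : (Z ×ˢ Z).card = ∑ k ∈ Finset.range J, s k := by
      refine Finset.card_eq_sum_card_fiberwise fun q hq => ?_
      have hq' := Finset.mem_product.mp (Finset.mem_coe.mp hq)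
      refine Finset.mem_coe.mpr (Finset.mem_range.mpr ?_)
      rw [hJ, Nat.lt_succ_iff]
      refine Nat.floor_le_floor ?_
      have h2 := (hZ q.1 hq'.1).2
      have h3 := (hZ q.2 hq'.2).2
      linarith
    rw [← h1, Finset.card_product, sq]
  have hsq : ∑ k ∈ Finset.range J, (s k) ^ 2 ≤ energy Z := by
    set Q : Finset ((ℂ × ℂ) × (ℂ × ℂ)) := ((Z ×ˢ Z) ×ˢ (Z ×ˢ Z)).filter
      (fun q => g q.1 = g q.2) with hQ
    have h1 : ∑ k ∈ Finset.range J, (s k) ^ 2 ≤ Q.card := by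
      refine le_trans ?_ (EN_fiber Q J (fun q => g q.1))
      refine Finset.sum_le_sum fun k _ => ?_
      simp only [hs]
      rw [sq, ← Finset.card_product]
      refine Finset.card_le_card fun q hq => ?_
      rw [Finset.mem_product, Finset.mem_filter, Finset.mem_filter] at hq
      obtain ⟨⟨h1, h2⟩, h3, h4⟩ := hq
      rw [Finset.mem_filter, hQ, Finset.mem_filter, Finset.mem_product]
      exact ⟨⟨⟨h1, h3⟩, h2.trans h4.symm⟩, h2⟩
    refine h1.trans ?_
    unfold energy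
    refine Finset.card_le_card fun q hq => ?_
    rw [hQ, Finset.mem_filter] at hq
    rw [Finset.mem_filter]
    refine ⟨hq.1, ?_⟩
    have hm := hq.1
    rw [Finset.mem_product, Finset.mem_product, Finset.mem_product] at hm
    obtain ⟨⟨a1, a2⟩, a3, a4⟩ := hm
    have b1 := (hZ _ a1).1
    have b2 := (hZ _ a2).1
    have b3 := (hZ _ a3).1
    have b4 := (hZ _ a4).1
    have h4 := EN_floor_close (x := q.1.1.im + q.1.2.im) (y := q.2.1.im + q.2.2.im)
      (by linarith) (by linarith) hq.2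
    have e : q.1.1.im + q.1.2.im - q.2.1.im - q.2.2.im
        = (q.1.1.im + q.1.2.im) - (q.2.1.im + q.2.2.im) := by ring
    rw [e]
    exact h4
  have hcs : (∑ k ∈ Finset.range J, (s k : ℝ)) ^ 2
      ≤ (J : ℝ) * ∑ k ∈ Finset.range J, (s k : ℝ) ^ 2 := by
    have := sq_sum_le_card_mul_sum_sq (s := Finset.range J) (f := fun k => (s k : ℝ))
    rwa [Finset.card_range] at this
  have h1 : (∑ k ∈ Finset.range J, (s k : ℝ)) = (Z.card : ℝ) ^ 2 := by
    exact_mod_cast hsum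
  have h2 : ∑ k ∈ Finset.range J, (s k : ℝ) ^ 2 ≤ (energy Z : ℝ) := by
    exact_mod_cast hsq
  have h3 : (J : ℝ) ≤ 2 * T + 2 := by
    rw [hJ]
    push_cast
    have := Nat.floor_le (show (0 : ℝ) ≤ 2 * T by linarith)
    linarith
  rw [h1] at hcs
  have h0 : (0 : ℝ) ≤ (energy Z : ℝ) := Nat.cast_nonneg _
  calc (Z.card : ℝ) ^ 4 = ((Z.card : ℝ) ^ 2) ^ 2 := by ring
    _ ≤ (J : ℝ) * ∑ k ∈ Finset.range J, (s k : ℝ) ^ 2 := hcs
    _ ≤ (2 * T + 2) * (energy Z : ℝ) := by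
        apply mul_le_mul h3 h2 (Finset.sum_nonneg fun k _ => sq_nonneg _) (by linarith)

end Pool.Agent.helper78.ED
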